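import Mathlib
import Pool.Agent.Results.MP_8ee885_co.TwoRankParity

set_option autoImplicit false

/-!
The (multi)set of Laplacian eigenvalues of a Cayley graph of `F_2^3` with gcd of the multiplicities
equal to one does not determine its sandpile group.
-/

namespace Pool.Agent.Results.MP_f0ff61_co.EigenvaluesDoNotDetermine

open Pool.Agent.Results.MP_8ee885_co.TwoRankParity
open scoped TensorProduct

/-- The sandpile group `K(M)`: torsion subgroup of the cokernel of the Laplacian. -/
abbrev K {r n : ℕ} (v : Fin n → W r) : Type := CokerTorsion (lap v)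

/-- The statement Q1. -/
def Q1 : Prop := ∀ (r n n' : ℕ) (v : Fin n → W r) (v' : Fin n' → W r), 1 ≤ r →
  Admissible v → Admissible v' → Set.range (eig v) = Set.range (eig v') →
  Nonempty (K v ≃+ K v')

section aux

theorem twoRank_congr {A B : Type} [AddCommGroup A] [AddCommGroup B] (e : A ≃+ B) :
    twoRank A = twoRank B := by
  unfold twoRank
  exact LinearEquiv.finrank_eq
    (TensorProduct.AlgebraTensorModule.congr (LinearEquiv.refl (ZMod 2) (ZMod 2))
      e.toIntLinearEquiv)

/-- A list with multiplicities `0, 1, 2, 1, 2, 1, 2`. -/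
def v1 : Fin 9 → W 3 := ![![0, 1, 0], ![1, 1, 0], ![1, 1, 0], ![0, 0, 1], ![1, 0, 1], ![1, 0, 1],
  ![0, 1, 1], ![1, 1, 1], ![1, 1, 1]]

/-- A list with multiplicities `1, 1, 1, 1, 1, 1, 3`. -/
def v2 : Fin 9 → W 3 := ![![1, 0, 0], ![0, 1, 0], ![1, 1, 0], ![0, 0, 1], ![1, 0, 1], ![0, 1, 1],
  ![1, 1, 1], ![1, 1, 1], ![1, 1, 1]]

theorem span_of {n : ℕ} (v : Fin n → W 3) (h1 : ![1, 1, 0] ∈ Set.range v)
    (h2 : ![0, 1, 0] ∈ Set.range v) (h3 : ![0, 0, 1] ∈ Set.range v) :
    Submodule.span (ZMod 2) (Set.range v) = ⊤ := by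
  rw [eq_top_iff]
  intro x _
  have e : x = x 0 • ![1, 1, 0] + (x 0 + x 1) • ![0, 1, 0] + x 2 • ![0, 0, 1] := by
    have h2 : ∀ a b : ZMod 2, b = a + (a + b) := by decide
    funext i
    fin_cases i
    · simp
    · simpa using h2 (x 0) (x 1)
    · simp
  rw [e]
  exact Submodule.add_mem _ (Submodule.add_mem _
    (Submodule.smul_mem _ _ (Submodule.subset_span h1))
    (Submodule.smul_mem _ _ (Submodule.subset_span h2)))
    (Submodule.smul_mem _ _ (Submodule.subset_span h3))

theorem v1_admissible : Admissible v1 where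
  ne_zero := by decide
  span := span_of v1 ⟨1, rfl⟩ ⟨0, rfl⟩ ⟨3, rfl⟩
  gcd_eq_one := by
    intro k hk
    have h1 : mult v1 ![0, 1, 0] = 1 := by decide
    have := hk ![0, 1, 0] (by rw [h1]; exact one_pos)
    rw [h1] at this
    exact Nat.dvd_one.1 this

theorem v2_admissible : Admissible v2 where
  ne_zero := by decide
  span := span_of v2 ⟨2, rfl⟩ ⟨1, rfl⟩ ⟨3, rfl⟩
  gcd_eq_one := by
    intro k hk
    have h1 : mult v2 ![0, 1, 0] = 1 := by decide
    have := hk ![0, 1, 0] (by rw [h1]; exact one_pos)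
    rw [h1] at this
    exact Nat.dvd_one.1 this

theorem not_iso : IsEmpty (K v1 ≃+ K v2) := by
  constructor
  intro e
  have h1 : d v1 = d v2 := twoRank_congr e
  have h2 : d v2 = 2 ^ 3 - 2 := by
    apply (result.2.2 3 9 v2 (by norm_num) v2_admissible).1
    decide
  have h3 : Odd (d v1) := by
    apply (result.2.2 3 9 v1 (by norm_num) v1_admissible).2
    decide
  rw [h1, h2] at h3
  exact absurd h3 (by decide)

theorem eig_eq_multiset : (Finset.univ.val.map (eig v1) : Multiset ℤ) =
    Finset.univ.val.map (eig v2) := by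
  decide

end aux

/-- Q1 is false, even if the multisets of eigenvalues (and the numbers of generators) agree:
there are two admissible lists of nine vectors in `F_2^3` with the same multiset of eigenvalues and
non-isomorphic sandpile groups. -/
theorem result :
    ¬ Q1 ∧ ∃ v v' : Fin 9 → W 3, Admissible v ∧ Admissible v' ∧
      (Finset.univ.val.map (eig v) : Multiset ℤ) = Finset.univ.val.map (eig v') ∧
      IsEmpty (K v ≃+ K v') := by
  refine ⟨?_, v1, v2, v1_admissible, v2_admissible, eig_eq_multiset, not_iso⟩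
  intro h
  have h1 : Set.range (eig v1) = Set.range (eig v2) := by
    ext x
    have h2 : x ∈ (Finset.univ.val.map (eig v1) : Multiset ℤ) ↔
        x ∈ (Finset.univ.val.map (eig v2) : Multiset ℤ) := by rw [eig_eq_multiset]
    simpa using h2
  exact not_iso.false (h 3 9 9 v1 v2 (by norm_num) v1_admissible v2_admissible h1).some

end Pool.Agent.Results.MP_f0ff61_co.EigenvaluesDoNotDetermine
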